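import Pool.Agent.Helper94_SQS.Stmts

/-!
SQS: module TOP: the set `KS` is closed.
-/

open MeasureTheory Filter Topology

namespace Pool.Agent.SQS.H47

open Pool.Agent.SQS

theorem clopen_coord (i : Idx) (b : Bool) : IsClopen {p : Idx → Bool | p i = b} :=
  (isClopen_discrete {b}).preimage (continuous_apply i)

theorem closed_imp {a b : (Idx → Bool) → Prop} (ha : IsClopen {p | a p}) (hb : IsClosed {p | b p}) :
    IsClosed {p | a p → b p} := by
  have h : {p | a p → b p} = {p | a p}ᶜ ∪ {p | b p} := by
    ext p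
    exact imp_iff_not_or
  rw [h]
  exact ha.compl.1.union hb

theorem clopen_const (c : Prop) : IsClopen {_p : Idx → Bool | c} := by
  by_cases h : c
  · have h1 : {_p : Idx → Bool | c} = Set.univ := Set.eq_univ_of_forall fun _ => h
    rw [h1]
    exact isClopen_univ
  · have h1 : {_p : Idx → Bool | c} = ∅ := Set.eq_empty_of_forall_notMem fun _ => h
    rw [h1]
    exact isClopen_empty

theorem closed_const (c : Prop) : IsClosed {_p : Idx → Bool | c} := (clopen_const c).1

/-- finitely many levels -/
theorem finite_levels (N : ℕ) : {m : M | m.1 < N}.Finite := by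
  have h1 : {m : M | m.1 < N} = ⋃ n ∈ Finset.range N, Set.range (fun H => (⟨n, H⟩ : M)) := by
    ext ⟨n, H⟩
    simp only [Set.mem_ofPred_eq, Finset.mem_range, Set.mem_iUnion, Set.mem_range, exists_prop]
    constructor
    · intro h
      exact ⟨n, h, H, rfl⟩
    · rintro ⟨n', h, H', h'⟩
      have := congrArg Sigma.fst h'
      simp only at this
      omega
  rw [h1]
  exact (Finset.range N).finite_toSet.biUnion fun n _ => Set.finite_range _

theorem top (h : ActStmt) : TopStmt := by
  have h1 : KS = {p | ∀ m m', pa p m = true → pa p m' = true → m = m'} ∩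
      {p | ∀ (m : M) x, pa p m = true → res m.1 x ∉ m.2.1 → py p (Z.pt x) = true} ∩
      {p | ∀ n v, (∀ i, i < n → pu p i = v i) → py p (Z.cl n v) = true} ∩
      {p | ∀ ξ k, py p (ξ k) = true →
        py p (Z.sq ξ) = true ∨ ∃ m : M, pa p m = true ∧ ¬ act ξ k m.1} := by
    ext p
    constructor
    · rintro ⟨a, b, c, d⟩
      exact ⟨⟨⟨a, b⟩, c⟩, d⟩
    · rintro ⟨⟨⟨a, b⟩, c⟩, d⟩
      exact ⟨a, b, c, d⟩
  unfold TopStmt
  rw [h1]
  refine ((IsClosed.inter ?_ ?_).inter ?_).inter ?_
  · have h2 : {p | ∀ m m', pa p m = true → pa p m' = true → m = m'} =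
        ⋂ m, ⋂ m', {p | pa p m = true → pa p m' = true → m = m'} := by
      ext p
      simp
    rw [h2]
    refine isClosed_iInter fun m => isClosed_iInter fun m' => ?_
    exact closed_imp (clopen_coord (Sum.inl m) true)
      (closed_imp (clopen_coord (Sum.inl m') true) (closed_const _))
  · have h2 : {p | ∀ (m : M) x, pa p m = true → res m.1 x ∉ m.2.1 → py p (Z.pt x) = true} =
        ⋂ m : M, ⋂ x, {p | pa p m = true → res m.1 x ∉ m.2.1 → py p (Z.pt x) = true} := by
      ext p
      simp
    rw [h2]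
    refine isClosed_iInter fun m => isClosed_iInter fun x => ?_
    refine closed_imp (clopen_coord (Sum.inl m) true) (closed_imp ?_
      (clopen_coord (Sum.inr (Sum.inr (Z.pt x))) true).1)
    exact clopen_const _
  · have h2 : {p | ∀ n v, (∀ i, i < n → pu p i = v i) → py p (Z.cl n v) = true} =
        ⋂ n, ⋂ v : ℕ → Bool, {p | (∀ i, i < n → pu p i = v i) → py p (Z.cl n v) = true} := by
      ext p
      simp
    rw [h2]
    refine isClosed_iInter fun n => isClosed_iInter fun v => ?_
    refine closed_imp ?_ (clopen_coord (Sum.inr (Sum.inr (Z.cl n v))) true).1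
    have h3 : {p : Idx → Bool | ∀ i, i < n → pu p i = v i} =
        ⋂ i ∈ Finset.range n, {p | p (Sum.inr (Sum.inl i)) = v i} := by
      ext p
      simp [pu]
    rw [h3]
    exact (Finset.range n).finite_toSet.isClopen_biInter fun i _ => clopen_coord _ _
  · have h2 : {p | ∀ ξ k, py p (ξ k) = true →
        py p (Z.sq ξ) = true ∨ ∃ m : M, pa p m = true ∧ ¬ act ξ k m.1} =
        ⋂ ξ : ℕ → Z, ⋂ k, {p | py p (ξ k) = true →
        py p (Z.sq ξ) = true ∨ ∃ m : M, pa p m = true ∧ ¬ act ξ k m.1} := by
      ext p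
      simp
    rw [h2]
    refine isClosed_iInter fun ξ => isClosed_iInter fun k => ?_
    refine closed_imp (clopen_coord (Sum.inr (Sum.inr (ξ k))) true) ?_
    obtain ⟨N, hN⟩ := h ξ k
    have hfin : {m : M | ¬ act ξ k m.1}.Finite := by
      apply (finite_levels N).subset
      intro m hm
      by_contra hcon
      exact hm (hN m.1 (not_lt.1 hcon))
    have h3 : {p : Idx → Bool | py p (Z.sq ξ) = true ∨ ∃ m : M, pa p m = true ∧ ¬ act ξ k m.1} =
        {p | p (Sum.inr (Sum.inr (Z.sq ξ))) = true} ∪
        ⋃ m ∈ {m : M | ¬ act ξ k m.1}, {p | p (Sum.inl m) = true} := by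
      ext p
      simp only [Set.mem_ofPred_eq, Set.mem_union, Set.mem_iUnion, exists_prop, py, pa]
      constructor
      · rintro (h | ⟨m, h, h'⟩)
        · exact Or.inl h
        · exact Or.inr ⟨m, h', h⟩
      · rintro (h | ⟨m, h, h'⟩)
        · exact Or.inl h
        · exact Or.inr ⟨m, h', h⟩
    rw [h3]
    exact (clopen_coord _ _).1.union (hfin.isClosed_biUnion fun m _ => (clopen_coord _ _).1)

end Pool.Agent.SQS.H47
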